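import Pool.Agent.Helper44.Idg.Sum

/-!
Components of residual subcubic forests with marked vertices: a pair `(b, c)` of rooted branches
whose roots are joined by an edge (if both are nonempty).
-/

namespace Pool.Agent.Helper44.Idg

/-- Rooted branches with marks: `e` is the empty branch, `n m l r` a root (marked if `m`) with
two (possibly empty) child branches. -/
inductive MB where
  | e : MB
  | n : Bool → MB → MB → MB

open MB

namespace MB

def size : MB → ℕ
  | e => 0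
  | n _ l r => l.size + r.size + 1

/-- mark the root -/
def mk : MB → MB
  | e => e
  | n _ l r => n true l r

end MB

abbrev K : Type := MB × MB

/-- the components of a branch whose root is removed -/
def ch : MB → Multiset K
  | .e => 0
  | .n _ x y => {(x, .e), (y, .e)}

/-- the components of a branch whose root is selected -/
def sel : MB → Multiset K
  | .e => 0
  | .n _ x y => ch x + ch y

/-- the moves in a branch that do not select its root: the new branch and the components that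
are cut off -/
inductive OA : MB → MB → Multiset K → Prop
  | l {m : Bool} {x y x' : MB} {f : Multiset K} : OA x x' f → OA (.n m x y) (.n m x' y) f
  | r {m : Bool} {x y y' : MB} {f : Multiset K} : OA y y' f → OA (.n m x y) (.n m x y') f
  | kl {m : Bool} {x y : MB} : x ≠ .e → OA (.n m x y) .e ((y, .e) ::ₘ sel x)
  | kr {m : Bool} {x y : MB} : y ≠ .e → OA (.n m x y) .e ((x, .e) ::ₘ sel y)

/-- the deletions of marked vertices in a branch -/
inductive OD : MB → MB → Multiset K → Prop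
  | root {x y : MB} : OD (.n true x y) .e (ch (.n true x y))
  | l {m : Bool} {x y x' : MB} {f : Multiset K} : OD x x' f → OD (.n m x y) (.n m x' y) f
  | r {m : Bool} {x y y' : MB} {f : Multiset K} : OD y y' f → OD (.n m x y) (.n m x y') f

/-- the moves in a component -/
inductive cmv : K → Multiset K → Prop
  | bA {b c b' : MB} {f : Multiset K} : OA b b' f → cmv (b, c) ((b', c) ::ₘ f)
  | cA {b c c' : MB} {f : Multiset K} : OA c c' f → cmv (b, c) ((b, c') ::ₘ f)
  | bR {b c : MB} : b ≠ .e → cmv (b, c) (sel b + ch c)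
  | cR {b c : MB} : c ≠ .e → cmv (b, c) (sel c + ch b)

/-- the deletions in a component -/
inductive cdl : K → Multiset K → Prop
  | bD {b c b' : MB} {f : Multiset K} : OD b b' f → cdl (b, c) ((b', c) ::ₘ f)
  | cD {b c c' : MB} {f : Multiset K} : OD c c' f → cdl (b, c) ((b, c') ::ₘ f)

def ksz (k : K) : ℕ := k.1.size + k.2.size

def msz (X : Multiset K) : ℕ := (X.map ksz).sum

theorem msz_add (X Y : Multiset K) : msz (X + Y) = msz X + msz Y := by simp [msz]

theorem msz_cons (k : K) (X : Multiset K) : msz (k ::ₘ X) = ksz k + msz X := by simp [msz]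

theorem msz_singleton (k : K) : msz {k} = ksz k := by simp [msz]

theorem msz_zero : msz 0 = 0 := by simp [msz]

theorem ch_le (b : MB) : msz (ch b) ≤ b.size := by
  cases b with
  | e => simp [ch, msz, size]
  | n m x y => simp [ch, msz, ksz, size]

theorem ch_lt {b : MB} (h : b ≠ .e) : msz (ch b) < b.size := by
  cases b with
  | e => exact absurd rfl h
  | n m x y => simp [ch, msz, ksz, size]

theorem sel_lt {b : MB} (h : b ≠ .e) : msz (sel b) < b.size := by
  cases b with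
  | e => exact absurd rfl h
  | n m x y =>
    have h1 := ch_le x
    have h2 := ch_le y
    simp only [sel, msz_add, size]; omega

theorem OA.lt {b b' : MB} {f : Multiset K} (h : OA b b' f) : b'.size + msz f < b.size := by
  induction h with
  | l h ih => simp only [size]; omega
  | r h ih => simp only [size]; omega
  | @kl m x y hx =>
    have := sel_lt hx
    simp only [size, msz_cons, ksz]; omega
  | @kr m x y hy =>
    have := sel_lt hy
    simp only [size, msz_cons, ksz]; omega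

theorem OD.lt {b b' : MB} {f : Multiset K} (h : OD b b' f) : b'.size + msz f < b.size := by
  induction h with
  | @root x y =>
    have := ch_lt (b := .n true x y) (by simp)
    simp only [size] at this ⊢; omega
  | l h ih => simp only [size]; omega
  | r h ih => simp only [size]; omega

theorem OA.ne {b b' : MB} {f : Multiset K} (h : OA b b' f) : b ≠ .e := by
  cases h <;> simp

theorem OD.ne {b b' : MB} {f : Multiset K} (h : OD b b' f) : b ≠ .e := by
  cases h <;> simp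

theorem cmv_lt {k : K} {F : Multiset K} (h : cmv k F) : msz F < ksz k := by
  cases h with
  | bA h => have := h.lt; simp only [msz_cons, ksz]; omega
  | cA h => have := h.lt; simp only [msz_cons, ksz]; omega
  | @bR b c h => have := sel_lt h; have := ch_le c; simp only [msz_add, ksz]; omega
  | @cR b c h => have := sel_lt h; have := ch_le b; simp only [msz_add, ksz]; omega

theorem cdl_lt {k : K} {F : Multiset K} (h : cdl k F) : msz F < ksz k := by
  cases h with
  | bD h => have := h.lt; simp only [msz_cons, ksz]; omega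
  | cD h => have := h.lt; simp only [msz_cons, ksz]; omega

theorem cdl_mv {k : K} {F : Multiset K} (h : cdl k F) : ∃ F', cmv k F' := by
  cases h with
  | bD h => exact ⟨_, cmv.bR h.ne⟩
  | cD h => exact ⟨_, cmv.cR h.ne⟩

/-- the component game -/
def cg : Cm K where
  cmv := cmv
  cdl := cdl
  size := ksz
  lt h := cmv_lt h
  dl_lt h := cdl_lt h
  dl_mv h := cdl_mv h

/-- the game on positions -/
abbrev pg : Gm (Multiset K) := cg.pos

theorem mv_single {k : K} {Z : Multiset K} : pg.mv {k} Z ↔ cmv k Z := Cm.mv_singleton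

theorem dl_single {k : K} {Z : Multiset K} : pg.dl {k} Z ↔ cdl k Z := Cm.dl_singleton

/-- equality of positions up to re-rooting of the components -/
inductive PEq : Multiset K → Multiset K → Prop
  | refl (X : Multiset K) : PEq X X
  | symm {X Y : Multiset K} : PEq X Y → PEq Y X
  | trans {X Y Z : Multiset K} : PEq X Y → PEq Y Z → PEq X Z
  | add {X Y : Multiset K} (Z : Multiset K) : PEq X Y → PEq (X + Z) (Y + Z)
  | sig (b c : MB) : PEq {(b, c)} {(c, b)}
  | rho (m : Bool) (x y c : MB) : PEq {(.n m x y, c)} {(x, .n m y c)}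
  | sw (m : Bool) (x y c : MB) : PEq {(.n m x y, c)} {(.n m y x, c)}
  | nul : PEq {(.e, .e)} 0

theorem PEq.add2 {X Y X' Y' : Multiset K} (h1 : PEq X Y) (h2 : PEq X' Y') :
    PEq (X + X') (Y + Y') := by
  refine (h1.add X').trans ?_
  rw [add_comm Y X', add_comm Y Y']
  exact h2.add Y

theorem PEq.cons {k : K} {X Y : Multiset K} (h : PEq X Y) : PEq (k ::ₘ X) (k ::ₘ Y) := by
  have := PEq.add2 (PEq.refl {k}) h
  simpa using this

theorem PEq.cons2 {k k' : K} {X Y : Multiset K} (hk : PEq {k} {k'}) (h : PEq X Y) :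
    PEq (k ::ₘ X) (k' ::ₘ Y) := by
  have := PEq.add2 hk h
  simpa using this

theorem PEq.of_eq {X Y : Multiset K} (h : X = Y) : PEq X Y := h ▸ PEq.refl X

theorem ch_n (m : Bool) (x y : MB) : ch (.n m x y) = {(x, .e), (y, .e)} := rfl

theorem sel_n (m : Bool) (x y : MB) : sel (.n m x y) = ch x + ch y := rfl

theorem sim_sig (b c : MB) : ∀ X', cmv (b, c) X' → ∃ Y', cmv (c, b) Y' ∧ PEq X' Y' := by
  intro X' h
  cases h with
  | bA h => exact ⟨_, cmv.cA h, (PEq.sig _ _).cons2 (PEq.refl _)⟩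
  | cA h => exact ⟨_, cmv.bA h, (PEq.sig _ _).cons2 (PEq.refl _)⟩
  | bR h => exact ⟨_, cmv.cR h, PEq.refl _⟩
  | cR h => exact ⟨_, cmv.bR h, PEq.refl _⟩

theorem sim_rho (m : Bool) (x y c : MB) : ∀ X', cmv (.n m x y, c) X' →
    ∃ Y', cmv (x, .n m y c) Y' ∧ PEq X' Y' := by
  intro X' h
  cases h with
  | bA h =>
    cases h with
    | l h => exact ⟨_, cmv.bA h, (PEq.rho _ _ _ _).cons2 (PEq.refl _)⟩
    | r h => exact ⟨_, cmv.cA (OA.l h), (PEq.rho _ _ _ _).cons2 (PEq.refl _)⟩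
    | kl h =>
      refine ⟨_, cmv.bR h, ((PEq.sig _ _).cons2 (PEq.refl _)).trans (PEq.of_eq ?_)⟩
      rw [ch_n]
      simp only [Multiset.insert_eq_cons, ← Multiset.singleton_add]
      abel
    | kr h =>
      refine ⟨_, cmv.cA (OA.kl h), ((PEq.sig _ _).cons2 (PEq.refl _)).trans (PEq.of_eq ?_)⟩
      exact Multiset.cons_swap _ _ _
  | cA h => exact ⟨_, cmv.cA (OA.r h), (PEq.rho _ _ _ _).cons2 (PEq.refl _)⟩
  | bR h =>
    refine ⟨_, cmv.cR (by simp), PEq.of_eq ?_⟩
    rw [sel_n, sel_n]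
    abel
  | cR h =>
    refine ⟨_, cmv.cA (OA.kr h), PEq.of_eq ?_⟩
    rw [ch_n]
    simp only [Multiset.insert_eq_cons, ← Multiset.singleton_add]
    abel

theorem sim_rho' (m : Bool) (x y c : MB) : ∀ X', cmv (x, .n m y c) X' →
    ∃ Y', cmv (.n m x y, c) Y' ∧ PEq X' Y' := by
  intro X' h
  cases h with
  | bA h => exact ⟨_, cmv.bA (OA.l h), (PEq.rho _ _ _ _).symm.cons2 (PEq.refl _)⟩
  | cA h =>
    cases h with
    | l h => exact ⟨_, cmv.bA (OA.r h), (PEq.rho _ _ _ _).symm.cons2 (PEq.refl _)⟩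
    | r h => exact ⟨_, cmv.cA h, (PEq.rho _ _ _ _).symm.cons2 (PEq.refl _)⟩
    | kl h =>
      refine ⟨_, cmv.bA (OA.kr h), (PEq.of_eq (Multiset.cons_swap _ _ _)).trans
        ((PEq.sig _ _).cons2 (PEq.refl _))⟩
    | kr h =>
      refine ⟨_, cmv.cR h, PEq.of_eq ?_⟩
      rw [ch_n]
      simp only [Multiset.insert_eq_cons, ← Multiset.singleton_add]
      abel
  | bR h =>
    refine ⟨_, cmv.bA (OA.kl h), (PEq.of_eq ?_).trans ((PEq.sig c .e).cons2 (PEq.refl _))⟩
    rw [ch_n]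
    simp only [Multiset.insert_eq_cons, ← Multiset.singleton_add]
    abel
  | cR h =>
    refine ⟨_, cmv.bR (by simp), PEq.of_eq ?_⟩
    rw [sel_n, sel_n]
    abel

theorem sim_sw (m : Bool) (x y c : MB) : ∀ X', cmv (.n m x y, c) X' →
    ∃ Y', cmv (.n m y x, c) Y' ∧ PEq X' Y' := by
  intro X' h
  cases h with
  | bA h =>
    cases h with
    | l h => exact ⟨_, cmv.bA (OA.r h), (PEq.sw _ _ _ _).cons2 (PEq.refl _)⟩
    | r h => exact ⟨_, cmv.bA (OA.l h), (PEq.sw _ _ _ _).cons2 (PEq.refl _)⟩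
    | kl h => exact ⟨_, cmv.bA (OA.kr h), PEq.refl _⟩
    | kr h => exact ⟨_, cmv.bA (OA.kl h), PEq.refl _⟩
  | cA h => exact ⟨_, cmv.cA h, (PEq.sw _ _ _ _).cons2 (PEq.refl _)⟩
  | bR h =>
    refine ⟨_, cmv.bR (by simp), PEq.of_eq ?_⟩
    rw [sel_n, sel_n, add_comm (ch x)]
  | cR h =>
    refine ⟨_, cmv.cR h, PEq.of_eq ?_⟩
    rw [ch_n, ch_n, Multiset.pair_comm]

theorem dsim_sig (b c : MB) : ∀ X', cdl (b, c) X' → ∃ Y', cdl (c, b) Y' ∧ PEq X' Y' := by
  intro X' h
  cases h with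
  | bD h => exact ⟨_, cdl.cD h, (PEq.sig _ _).cons2 (PEq.refl _)⟩
  | cD h => exact ⟨_, cdl.bD h, (PEq.sig _ _).cons2 (PEq.refl _)⟩

theorem dsim_rho (m : Bool) (x y c : MB) : ∀ X', cdl (.n m x y, c) X' →
    ∃ Y', cdl (x, .n m y c) Y' ∧ PEq X' Y' := by
  intro X' h
  cases h with
  | bD h =>
    cases h with
    | root =>
      refine ⟨_, cdl.cD OD.root, ((PEq.sig _ _).cons2 (PEq.refl _)).trans (PEq.of_eq ?_)⟩
      rw [ch_n, ch_n]
      simp only [Multiset.insert_eq_cons, ← Multiset.singleton_add]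
      abel
    | l h => exact ⟨_, cdl.bD h, (PEq.rho _ _ _ _).cons2 (PEq.refl _)⟩
    | r h => exact ⟨_, cdl.cD (OD.l h), (PEq.rho _ _ _ _).cons2 (PEq.refl _)⟩
  | cD h => exact ⟨_, cdl.cD (OD.r h), (PEq.rho _ _ _ _).cons2 (PEq.refl _)⟩

theorem dsim_rho' (m : Bool) (x y c : MB) : ∀ X', cdl (x, .n m y c) X' →
    ∃ Y', cdl (.n m x y, c) Y' ∧ PEq X' Y' := by
  intro X' h
  cases h with
  | bD h => exact ⟨_, cdl.bD (OD.l h), (PEq.rho _ _ _ _).symm.cons2 (PEq.refl _)⟩
  | cD h =>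
    cases h with
    | root =>
      refine ⟨_, cdl.bD OD.root, (PEq.of_eq ?_).trans ((PEq.sig c .e).cons2 (PEq.refl _))⟩
      rw [ch_n, ch_n]
      simp only [Multiset.insert_eq_cons, ← Multiset.singleton_add]
      abel
    | l h => exact ⟨_, cdl.bD (OD.r h), (PEq.rho _ _ _ _).symm.cons2 (PEq.refl _)⟩
    | r h => exact ⟨_, cdl.cD h, (PEq.rho _ _ _ _).symm.cons2 (PEq.refl _)⟩

theorem dsim_sw (m : Bool) (x y c : MB) : ∀ X', cdl (.n m x y, c) X' →
    ∃ Y', cdl (.n m y x, c) Y' ∧ PEq X' Y' := by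
  intro X' h
  cases h with
  | bD h =>
    cases h with
    | root =>
      refine ⟨_, cdl.bD OD.root, PEq.of_eq ?_⟩
      rw [ch_n, ch_n, Multiset.pair_comm]
    | l h => exact ⟨_, cdl.bD (OD.r h), (PEq.sw _ _ _ _).cons2 (PEq.refl _)⟩
    | r h => exact ⟨_, cdl.bD (OD.l h), (PEq.sw _ _ _ _).cons2 (PEq.refl _)⟩
  | cD h => exact ⟨_, cdl.cD h, (PEq.sw _ _ _ _).cons2 (PEq.refl _)⟩

/-- two relations on positions simulate each other -/
def Sims (r : Multiset K → Multiset K → Prop) (X Y : Multiset K) : Prop :=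
  (∀ X', r X X' → ∃ Y', r Y Y' ∧ PEq X' Y') ∧ (∀ Y', r Y Y' → ∃ X', r X X' ∧ PEq X' Y')

theorem Sims.symm {r : Multiset K → Multiset K → Prop} {X Y : Multiset K} (h : Sims r X Y) :
    Sims r Y X := by
  refine ⟨fun X' h' => ?_, fun X' h' => ?_⟩
  · obtain ⟨Y', h1, h2⟩ := h.2 X' h'; exact ⟨Y', h1, h2.symm⟩
  · obtain ⟨Y', h1, h2⟩ := h.1 X' h'; exact ⟨Y', h1, h2.symm⟩

theorem Sims.trans {r : Multiset K → Multiset K → Prop} {X Y Z : Multiset K} (h : Sims r X Y)
    (h' : Sims r Y Z) : Sims r X Z := by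
  refine ⟨fun X' hX => ?_, fun X' hX => ?_⟩
  · obtain ⟨Y', h1, h2⟩ := h.1 X' hX
    obtain ⟨Z', h3, h4⟩ := h'.1 Y' h1
    exact ⟨Z', h3, h2.trans h4⟩
  · obtain ⟨Y', h1, h2⟩ := h'.2 X' hX
    obtain ⟨Z', h3, h4⟩ := h.2 Y' h1
    exact ⟨Z', h3, h4.trans h2⟩

theorem Sims.add {r : K → Multiset K → Prop} {X Y Z : Multiset K} (hXY : PEq X Y)
    (h : Sims (Cm.lift r) X Y) : Sims (Cm.lift r) (X + Z) (Y + Z) := by
  refine ⟨fun X' hX => ?_, fun X' hX => ?_⟩
  · rcases Cm.lift_add.mp hX with ⟨X1, h1, rfl⟩ | ⟨Z1, h1, rfl⟩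
    · obtain ⟨Y1, h2, h3⟩ := h.1 X1 h1
      exact ⟨Y1 + Z, Cm.lift_add.mpr (Or.inl ⟨Y1, h2, rfl⟩), h3.add Z⟩
    · exact ⟨_, Cm.lift_add.mpr (Or.inr ⟨Z1, h1, rfl⟩), hXY.add Z1⟩
  · rcases Cm.lift_add.mp hX with ⟨X1, h1, rfl⟩ | ⟨Z1, h1, rfl⟩
    · obtain ⟨Y1, h2, h3⟩ := h.2 X1 h1
      exact ⟨Y1 + Z, Cm.lift_add.mpr (Or.inl ⟨Y1, h2, rfl⟩), h3.add Z⟩
    · exact ⟨_, Cm.lift_add.mpr (Or.inr ⟨Z1, h1, rfl⟩), hXY.add Z1⟩

theorem Sims.single {r : K → Multiset K → Prop} {k k' : K}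
    (h1 : ∀ X', r k X' → ∃ Y', r k' Y' ∧ PEq X' Y')
    (h2 : ∀ X', r k' X' → ∃ Y', r k Y' ∧ PEq X' Y') :
    Sims (Cm.lift r) {k} {k'} := by
  refine ⟨fun X' hX => ?_, fun X' hX => ?_⟩
  · obtain ⟨Y', h3, h4⟩ := h1 X' (Cm.lift_singleton.mp hX)
    exact ⟨Y', Cm.lift_singleton.mpr h3, h4⟩
  · obtain ⟨Y', h3, h4⟩ := h2 X' (Cm.lift_singleton.mp hX)
    exact ⟨Y', Cm.lift_singleton.mpr h3, h4.symm⟩

theorem PEq.sim {X Y : Multiset K} (h : PEq X Y) :
    Sims (Cm.lift cmv) X Y ∧ Sims (Cm.lift cdl) X Y := by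
  induction h with
  | refl X =>
    exact ⟨⟨fun X' h => ⟨X', h, PEq.refl _⟩, fun X' h => ⟨X', h, PEq.refl _⟩⟩,
      ⟨fun X' h => ⟨X', h, PEq.refl _⟩, fun X' h => ⟨X', h, PEq.refl _⟩⟩⟩
  | symm _ ih => exact ⟨ih.1.symm, ih.2.symm⟩
  | trans _ _ ih1 ih2 => exact ⟨ih1.1.trans ih2.1, ih1.2.trans ih2.2⟩
  | add Z h ih => exact ⟨ih.1.add h, ih.2.add h⟩
  | sig b c =>
    exact ⟨Sims.single (sim_sig b c) (sim_sig c b), Sims.single (dsim_sig b c) (dsim_sig c b)⟩
  | rho m x y c =>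
    exact ⟨Sims.single (sim_rho m x y c) (sim_rho' m x y c),
      Sims.single (dsim_rho m x y c) (dsim_rho' m x y c)⟩
  | sw m x y c =>
    exact ⟨Sims.single (sim_sw m x y c) (sim_sw m y x c),
      Sims.single (dsim_sw m x y c) (dsim_sw m y x c)⟩
  | nul =>
    refine ⟨⟨fun X' h => ?_, fun X' h => ?_⟩, ⟨fun X' h => ?_, fun X' h => ?_⟩⟩
    · exfalso
      have h' := Cm.lift_singleton.mp h
      cases h' with
      | bA h' => exact h'.ne rfl
      | cA h' => exact h'.ne rfl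
      | bR h' => exact h' rfl
      | cR h' => exact h' rfl
    · obtain ⟨k, X0, F, h, -⟩ := h
      exact absurd h.symm (Multiset.cons_ne_zero)
    · exfalso
      have h' := Cm.lift_singleton.mp h
      cases h' with
      | bD h' => exact h'.ne rfl
      | cD h' => exact h'.ne rfl
    · obtain ⟨k, X0, F, h, -⟩ := h
      exact absurd h.symm (Multiset.cons_ne_zero)

theorem P_congr {u t : ℤ} {X Y X' Y' : Multiset K} {m : ℤ} (hX : PEq X X') (hY : PEq Y Y')
    (h : pg.P u t X Y m) : pg.P u t X' Y' m :=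
  Gm.bisim PEq (fun _ _ h => h.sim.1.1) (fun _ _ h => h.sim.1.2) (fun _ _ h => h.sim.2.1)
    (fun _ _ h => h.sim.2.2) _ X Y X' Y' le_rfl hX hY t m h

/-- equality of open branches, up to order of the children -/
def BEq (b b' : MB) : Prop := ∀ c, PEq {(b, c)} {(b', c)}

theorem BEq.refl (b : MB) : BEq b b := fun _ => PEq.refl _
theorem BEq.symm {b b' : MB} (h : BEq b b') : BEq b' b := fun c => (h c).symm
theorem BEq.trans {a b c : MB} (h : BEq a b) (h' : BEq b c) : BEq a c := fun d => (h d).trans (h' d)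

theorem BEq.sw (m : Bool) (x y : MB) : BEq (.n m x y) (.n m y x) := fun c => PEq.sw m x y c

theorem BEq.n (m : Bool) {x x' y y' : MB} (hx : BEq x x') (hy : BEq y y') :
    BEq (.n m x y) (.n m x' y') := by
  have h1 : ∀ x x' y : MB, BEq x x' → BEq (.n m x y) (.n m x' y) := fun x x' y h c =>
    (PEq.rho m x y c).trans ((h (.n m y c)).trans (PEq.rho m x' y c).symm)
  exact (h1 x x' y hx).trans (((BEq.sw m x' y).trans (h1 y y' x' hy)).trans (BEq.sw m y' x'))

end Pool.Agent.Helper44.Idg
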