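import Pool.Agent.Helper44.Idg.Branch

/-!
Relaxations of the real position: cutting an edge (and marking its ends) and marking vertices.
-/

namespace Pool.Agent.Helper44.Idg

open MB

theorem OA_mk {b b' : MB} {f : Multiset K} (h : OA b b' f) : OA (mk b) (mk b') f := by
  cases h with
  | l h => exact OA.l h
  | r h => exact OA.r h
  | kl h => exact OA.kl h
  | kr h => exact OA.kr h

theorem OA_mk' {b b1 : MB} {f : Multiset K} (h : OA (mk b) b1 f) : ∃ b', OA b b' f ∧ b1 = mk b' := by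
  cases b with
  | e => exact absurd rfl h.ne
  | n m x y =>
    simp only [mk] at h
    cases h with
    | l h => exact ⟨_, OA.l h, rfl⟩
    | r h => exact ⟨_, OA.r h, rfl⟩
    | kl h => exact ⟨_, OA.kl h, rfl⟩
    | kr h => exact ⟨_, OA.kr h, rfl⟩

theorem OD_mk {b b' : MB} {f : Multiset K} (h : OD b b' f) : OD (mk b) (mk b') f := by
  cases h with
  | root => exact OD.root
  | l h => exact OD.l h
  | r h => exact OD.r h

theorem sel_mk (b : MB) : sel (mk b) = sel b := by cases b <;> rfl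

theorem ch_mk (b : MB) : ch (mk b) = ch b := by cases b <;> rfl

theorem mk_ne {b : MB} (h : b ≠ .e) : mk b ≠ .e := by
  cases b with
  | e => exact absurd rfl h
  | n m x y => simp [mk]

theorem mk_ne' {b : MB} (h : mk b ≠ .e) : b ≠ .e := by
  rintro rfl; exact h rfl

/-- `Rx X Y`: `Y` arises from `X` by cutting edges and marking vertices. -/
inductive Rx : Multiset K → Multiset K → Prop
  | peq {X Y : Multiset K} : PEq X Y → Rx X Y
  | trans {X Y Z : Multiset K} : Rx X Y → Rx Y Z → Rx X Z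
  | add {X Y : Multiset K} (Z : Multiset K) : Rx X Y → Rx (X + Z) (Y + Z)
  | cut (b c : MB) : Rx {(b, c)} {(mk b, .e), (mk c, .e)}
  | mark (x y c : MB) : Rx {(.n false x y, c)} {(.n true x y, c)}

theorem Rx.refl (X : Multiset K) : Rx X X := Rx.peq (PEq.refl X)

theorem Rx.add2 {X Y X' Y' : Multiset K} (h1 : Rx X Y) (h2 : Rx X' Y') :
    Rx (X + X') (Y + Y') := by
  refine (h1.add X').trans ?_
  rw [add_comm Y X', add_comm Y Y']
  exact h2.add Y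

theorem Rx.cons2 {k k' : K} {X Y : Multiset K} (hk : Rx {k} {k'}) (h : Rx X Y) :
    Rx (k ::ₘ X) (k' ::ₘ Y) := by
  have := Rx.add2 hk h
  simpa using this

/-- the simulation property -/
structure Simr (X X' : Multiset K) : Prop where
  h1 : ∀ Y, pg.mv X Y → ∃ W Y2, pg.dls X' W ∧ pg.mv W Y2 ∧ Rx Y Y2
  h2 : ∀ Y1, pg.mv X' Y1 → ∃ Y, pg.mv X Y ∧ ∃ Y2, pg.dls Y1 Y2 ∧ Rx Y Y2
  h3 : ∀ Y, pg.dl X Y → ∃ Y1, pg.dls X' Y1 ∧ Rx Y Y1

/-- delete the root of `mk c` if there is one -/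
theorem del_root (c : MB) (X : Multiset K) :
    ∃ W, pg.dls (X + {(mk c, .e)}) W ∧ PEq (X + ch c) W := by
  cases c with
  | e =>
    refine ⟨_, Gm.dls.refl _, ?_⟩
    exact PEq.add2 (PEq.refl X) PEq.nul.symm
  | n m x y =>
    refine ⟨X + (.e, .e) ::ₘ ch (.n m x y), Gm.dls.one (Cm.dl_add.mpr (Or.inr ⟨_, ?_, rfl⟩)), ?_⟩
    · exact dl_single.mpr (cdl.bD OD.root)
    · refine PEq.add2 (PEq.refl X) ?_
      have := (PEq.nul.symm.add (ch (.n m x y)))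
      simpa using this

theorem sim_cut (b c : MB) : Simr {(b, c)} {(mk b, .e), (mk c, .e)} := by
  have pair : ∀ b c : MB, ({(mk b, .e), (mk c, .e)} : Multiset K) = {(mk b, .e)} + {(mk c, .e)} := by
    intro b c; rfl
  -- the statements for the left branch
  have g1 : ∀ b c : MB, ∀ Y, (∃ b' f, OA b b' f ∧ Y = (b', c) ::ₘ f) →
      ∃ W Y2, pg.dls {(mk b, .e), (mk c, .e)} W ∧ pg.mv W Y2 ∧ Rx Y Y2 := by
    rintro b c Y ⟨b', f, h, rfl⟩
    refine ⟨_, (mk b', .e) ::ₘ f + {(mk c, .e)}, Gm.dls.refl _, ?_, ?_⟩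
    · rw [pair]
      exact Cm.mv_add.mpr (Or.inl ⟨_, mv_single.mpr (cmv.bA (OA_mk h)), rfl⟩)
    · have := Rx.add2 (Rx.cut b' c) (Rx.refl f)
      rw [show (b', c) ::ₘ f = {(b', c)} + f from (Multiset.singleton_add _ _).symm]
      refine this.trans (Rx.peq (PEq.of_eq ?_))
      simp only [Multiset.insert_eq_cons, ← Multiset.singleton_add]
      abel
  have g2 : ∀ b c : MB, b ≠ .e →
      ∃ W Y2, pg.dls {(mk b, .e), (mk c, .e)} W ∧ pg.mv W Y2 ∧ Rx (sel b + ch c) Y2 := by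
    intro b c hb
    obtain ⟨W, hW, hP⟩ := del_root c {(mk b, .e)}
    have hm : pg.mv ({(mk b, .e)} + ch c) ((sel (mk b) + ch .e) + ch c) :=
      Cm.mv_add.mpr (Or.inl ⟨_, mv_single.mpr (cmv.bR (mk_ne hb)), rfl⟩)
    obtain ⟨Y2, h1, h2⟩ := hP.sim.1.1 _ hm
    refine ⟨W, Y2, hW, h1, Rx.peq ((PEq.of_eq ?_).trans h2)⟩
    rw [sel_mk, show ch MB.e = 0 from rfl, add_zero]
  have g3 : ∀ b c : MB, ∀ Y, (∃ b' f, OA (mk b) b' f ∧ Y = (b', .e) ::ₘ f + {(mk c, .e)}) →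
      ∃ Z, cmv (b, c) Z ∧ ∃ Y2, pg.dls Y Y2 ∧ Rx Z Y2 := by
    rintro b c Y ⟨b1, f, h, rfl⟩
    obtain ⟨b', h', rfl⟩ := OA_mk' h
    refine ⟨(b', c) ::ₘ f, cmv.bA h', _, Gm.dls.refl _, ?_⟩
    have := Rx.add2 (Rx.cut b' c) (Rx.refl f)
    rw [show (b', c) ::ₘ f = {(b', c)} + f from (Multiset.singleton_add _ _).symm]
    refine this.trans (Rx.peq (PEq.of_eq ?_))
    simp only [Multiset.insert_eq_cons, ← Multiset.singleton_add]
    abel
  have g4 : ∀ b c : MB, mk b ≠ .e →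
      ∃ Z, cmv (b, c) Z ∧ ∃ Y2, pg.dls (sel (mk b) + ch .e + {(mk c, .e)}) Y2 ∧ Rx Z Y2 := by
    intro b c hb
    obtain ⟨W, hW, hP⟩ := del_root c (sel (mk b) + ch .e)
    refine ⟨_, cmv.bR (mk_ne' hb), W, hW, Rx.peq ((PEq.of_eq ?_).trans hP)⟩
    rw [sel_mk, show ch MB.e = 0 from rfl, add_zero]
  have g5 : ∀ b c : MB, ∀ Y, (∃ b' f, OD b b' f ∧ Y = (b', c) ::ₘ f) →
      ∃ Y1, pg.dls {(mk b, .e), (mk c, .e)} Y1 ∧ Rx Y Y1 := by
    rintro b c Y ⟨b', f, h, rfl⟩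
    refine ⟨(mk b', .e) ::ₘ f + {(mk c, .e)}, Gm.dls.one ?_, ?_⟩
    · rw [pair]
      exact Cm.dl_add.mpr (Or.inl ⟨_, dl_single.mpr (cdl.bD (OD_mk h)), rfl⟩)
    · have := Rx.add2 (Rx.cut b' c) (Rx.refl f)
      rw [show (b', c) ::ₘ f = {(b', c)} + f from (Multiset.singleton_add _ _).symm]
      refine this.trans (Rx.peq (PEq.of_eq ?_))
      simp only [Multiset.insert_eq_cons, ← Multiset.singleton_add]
      abel
  have swp : ({(mk b, .e), (mk c, .e)} : Multiset K) = {(mk c, .e), (mk b, .e)} :=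
    Multiset.pair_comm _ _
  have symR : ∀ {b c : MB} {f : Multiset K}, Rx ((b, c) ::ₘ f) ((c, b) ::ₘ f) := fun {b c f} =>
    Rx.peq ((PEq.sig b c).cons2 (PEq.refl f))
  refine ⟨?_, ?_, ?_⟩
  · intro Y hY
    have hY' := mv_single.mp hY
    cases hY' with
    | @bA _ _ b' f h => exact g1 b c _ ⟨b', f, h, rfl⟩
    | @cA _ _ c' f h =>
      obtain ⟨W, Y2, h1, h2, h3⟩ := g1 c b _ ⟨c', f, h, rfl⟩
      rw [swp]
      exact ⟨W, Y2, h1, h2, symR.trans h3⟩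
    | bR h => exact g2 b c h
    | cR h =>
      obtain ⟨W, Y2, h1, h2, h3⟩ := g2 c b h
      rw [swp]
      exact ⟨W, Y2, h1, h2, h3⟩
  · intro Y1 hY1
    have sy : ∀ {Z : Multiset K}, cmv (c, b) Z → ∃ Z', pg.mv {(b, c)} Z' ∧ PEq Z Z' := by
      intro Z hZ
      obtain ⟨Z', h1, h2⟩ := sim_sig c b Z hZ
      exact ⟨Z', mv_single.mpr h1, h2⟩
    rw [pair] at hY1
    rcases Cm.mv_add.mp hY1 with ⟨X', h, rfl⟩ | ⟨X', h, rfl⟩
    · have h' := mv_single.mp h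
      cases h' with
      | @bA _ _ b' f h9 =>
        obtain ⟨Z, h1, Y2, h2, h3⟩ := g3 b c _ ⟨b', f, h9, rfl⟩
        exact ⟨Z, mv_single.mpr h1, Y2, h2, h3⟩
      | cA h9 => exact absurd rfl h9.ne
      | bR h9 =>
        obtain ⟨Z, h1, Y2, h2, h3⟩ := g4 b c h9
        exact ⟨Z, mv_single.mpr h1, Y2, h2, h3⟩
      | cR h9 => exact absurd rfl h9
    · have h' := mv_single.mp h
      rw [add_comm]
      cases h' with
      | @bA _ _ b' f h9 =>
        obtain ⟨Z, h1, Y2, h2, h3⟩ := g3 c b _ ⟨b', f, h9, rfl⟩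
        obtain ⟨Z', h4, h5⟩ := sy h1
        exact ⟨Z', h4, Y2, h2, (Rx.peq h5.symm).trans h3⟩
      | cA h9 => exact absurd rfl h9.ne
      | bR h9 =>
        obtain ⟨Z, h1, Y2, h2, h3⟩ := g4 c b h9
        obtain ⟨Z', h4, h5⟩ := sy h1
        exact ⟨Z', h4, Y2, h2, (Rx.peq h5.symm).trans h3⟩
      | cR h9 => exact absurd rfl h9
  · intro Y hY
    have hY' := dl_single.mp hY
    cases hY' with
    | @bD _ _ b' f h => exact g5 b c _ ⟨b', f, h, rfl⟩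
    | @cD _ _ c' f h =>
      obtain ⟨Y1, h1, h2⟩ := g5 c b _ ⟨c', f, h, rfl⟩
      rw [swp]
      exact ⟨Y1, h1, symR.trans h2⟩

theorem sim_mark (x y c : MB) : Simr {(.n false x y, c)} {(.n true x y, c)} := by
  have hm : ∀ {b : MB}, Rx {(.n false x y, b)} {(.n true x y, b)} := fun {b} => Rx.mark x y b
  refine ⟨?_, ?_, ?_⟩
  · intro Y hY
    have hY' := mv_single.mp hY
    cases hY' with
    | bA h =>
      cases h with
      | @l _ _ _ x' f h =>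
        exact ⟨_, _, Gm.dls.refl _, mv_single.mpr (cmv.bA (OA.l h)),
          (Rx.mark x' y c).cons2 (Rx.refl _)⟩
      | @r _ _ _ y' f h =>
        exact ⟨_, _, Gm.dls.refl _, mv_single.mpr (cmv.bA (OA.r h)),
          (Rx.mark x y' c).cons2 (Rx.refl _)⟩
      | kl h => exact ⟨_, _, Gm.dls.refl _, mv_single.mpr (cmv.bA (OA.kl h)), Rx.refl _⟩
      | kr h => exact ⟨_, _, Gm.dls.refl _, mv_single.mpr (cmv.bA (OA.kr h)), Rx.refl _⟩
    | @cA _ _ c' f h =>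
      exact ⟨_, _, Gm.dls.refl _, mv_single.mpr (cmv.cA h), (Rx.mark x y c').cons2 (Rx.refl _)⟩
    | bR h => exact ⟨_, _, Gm.dls.refl _, mv_single.mpr (cmv.bR (by simp)), Rx.refl _⟩
    | cR h => exact ⟨_, _, Gm.dls.refl _, mv_single.mpr (cmv.cR h), Rx.refl _⟩
  · intro Y hY
    have hY' := mv_single.mp hY
    cases hY' with
    | bA h =>
      cases h with
      | @l _ _ _ x' f h =>
        exact ⟨_, mv_single.mpr (cmv.bA (OA.l h)), _, Gm.dls.refl _,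
          (Rx.mark x' y c).cons2 (Rx.refl _)⟩
      | @r _ _ _ y' f h =>
        exact ⟨_, mv_single.mpr (cmv.bA (OA.r h)), _, Gm.dls.refl _,
          (Rx.mark x y' c).cons2 (Rx.refl _)⟩
      | kl h => exact ⟨_, mv_single.mpr (cmv.bA (OA.kl h)), _, Gm.dls.refl _, Rx.refl _⟩
      | kr h => exact ⟨_, mv_single.mpr (cmv.bA (OA.kr h)), _, Gm.dls.refl _, Rx.refl _⟩
    | @cA _ _ c' f h =>
      exact ⟨_, mv_single.mpr (cmv.cA h), _, Gm.dls.refl _, (Rx.mark x y c').cons2 (Rx.refl _)⟩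
    | bR h => exact ⟨_, mv_single.mpr (cmv.bR (by simp)), _, Gm.dls.refl _, Rx.refl _⟩
    | cR h => exact ⟨_, mv_single.mpr (cmv.cR h), _, Gm.dls.refl _, Rx.refl _⟩
  · intro Y hY
    have hY' := dl_single.mp hY
    cases hY' with
    | bD h =>
      cases h with
      | @l _ _ _ x' f h =>
        exact ⟨_, Gm.dls.one (dl_single.mpr (cdl.bD (OD.l h))), (Rx.mark x' y c).cons2 (Rx.refl _)⟩
      | @r _ _ _ y' f h =>
        exact ⟨_, Gm.dls.one (dl_single.mpr (cdl.bD (OD.r h))), (Rx.mark x y' c).cons2 (Rx.refl _)⟩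
    | @cD _ _ c' f h =>
      exact ⟨_, Gm.dls.one (dl_single.mpr (cdl.cD h)), (Rx.mark x y c').cons2 (Rx.refl _)⟩

theorem PEq.size {X Y : Multiset K} (h : PEq X Y) : msz X = msz Y := by
  induction h with
  | refl => rfl
  | symm _ ih => exact ih.symm
  | trans _ _ ih1 ih2 => exact ih1.trans ih2
  | add Z _ ih => rw [msz_add, msz_add, ih]
  | sig b c => simp only [msz_singleton, ksz]; omega
  | rho m x y c => simp only [msz_singleton, ksz, MB.size]; omega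
  | sw m x y c => simp only [msz_singleton, ksz, MB.size]; omega
  | nul => simp [msz, ksz, MB.size]

theorem mk_size (b : MB) : (mk b).size = b.size := by cases b <;> rfl

theorem Rx.size {X Y : Multiset K} (h : Rx X Y) : msz X = msz Y := by
  induction h with
  | peq h => exact h.size
  | trans _ _ ih1 ih2 => exact ih1.trans ih2
  | add Z _ ih => rw [msz_add, msz_add, ih]
  | cut b c =>
    rw [show ({(mk b, .e), (mk c, .e)} : Multiset K) = {(mk b, .e)} + {(mk c, .e)} from rfl,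
      msz_add, msz_singleton, msz_singleton, msz_singleton]
    simp only [ksz, mk_size, MB.size]; omega
  | mark x y c => simp only [msz_singleton, ksz, MB.size]

/-- transport of deletions -/
theorem transport {n : ℕ} (hS : ∀ V V', Rx V V' → msz V < n → Simr V V') {Y Z W : Multiset K}
    (hYZ : Rx Y Z) (hs : Simr Y Z) (hn : msz Y ≤ n) (h : pg.dls Y W) :
    ∃ W', pg.dls Z W' ∧ Rx W W' ∧ Simr W W' := by
  induction h with
  | refl => exact ⟨Z, Gm.dls.refl _, hYZ, hs⟩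
  | @tail W1 W2 h1 h2 ih =>
    obtain ⟨W', h3, h4, h5⟩ := ih
    obtain ⟨W'', h6, h7⟩ := h5.h3 _ h2
    refine ⟨W'', h3.trans h6, h7, hS _ _ h7 ?_⟩
    have e1 : msz W1 ≤ msz Y := Gm.dls.le (g := pg) h1
    have e2 : msz W2 < msz W1 := pg.dl_lt h2
    omega

theorem Rx.sim_aux : ∀ (n : ℕ) {X X' : Multiset K}, Rx X X' → msz X ≤ n → Simr X X' := by
  intro n
  induction n using Nat.strong_induction_on with
  | _ n IH =>
  have hS : ∀ V V', Rx V V' → msz V < n → Simr V V' := fun V V' h hn => IH _ hn h le_rfl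
  intro X X' h
  induction h with
  | @peq X Y h =>
    intro _
    refine ⟨fun X1 h1 => ?_, fun Y1 h1 => ?_, fun X1 h1 => ?_⟩
    · obtain ⟨Y1, h2, h3⟩ := h.sim.1.1 _ h1
      exact ⟨Y, Y1, Gm.dls.refl _, h2, Rx.peq h3⟩
    · obtain ⟨X1, h2, h3⟩ := h.sim.1.2 _ h1
      exact ⟨X1, h2, Y1, Gm.dls.refl _, Rx.peq h3⟩
    · obtain ⟨Y1, h2, h3⟩ := h.sim.2.1 _ h1
      exact ⟨Y1, Gm.dls.one h2, Rx.peq h3⟩
  | @trans X Y Z hXY hYZ ih1 ih2 =>
    intro hn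
    have hnY : msz Y ≤ n := hXY.size ▸ hn
    have s1 := ih1 hn
    have s2 := ih2 hnY
    refine ⟨fun X1 h1 => ?_, fun Z1 h1 => ?_, fun X1 h1 => ?_⟩
    · obtain ⟨W, Y2, h2, h3, h4⟩ := s1.h1 _ h1
      obtain ⟨W', h5, h6, h7⟩ := transport hS hYZ s2 hnY h2
      obtain ⟨W'', Z2, h8, h9, h10⟩ := h7.h1 _ h3
      exact ⟨W'', Z2, h5.trans h8, h9, h4.trans h10⟩
    · obtain ⟨Y1, h2, Z2, h3, h4⟩ := s2.h2 _ h1
      obtain ⟨X1, h5, Y2, h6, h7⟩ := s1.h2 _ h2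
      have e1 : msz Y1 < msz Y := pg.lt h2
      obtain ⟨Z3, h8, h9, -⟩ := transport hS h4 (hS _ _ h4 (by omega)) (by omega) h6
      exact ⟨X1, h5, Z3, h3.trans h8, h7.trans h9⟩
    · obtain ⟨Y1, h2, h3⟩ := s1.h3 _ h1
      obtain ⟨Z1, h4, h5, -⟩ := transport hS hYZ s2 hnY h2
      exact ⟨Z1, h4, h3.trans h5⟩
  | @add X Y Z hXY ih =>
    intro hn
    have s := ih (by rw [msz_add] at hn; omega)
    refine ⟨fun V h1 => ?_, fun V h1 => ?_, fun V h1 => ?_⟩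
    · rcases Cm.mv_add.mp h1 with ⟨X1, h2, rfl⟩ | ⟨Z1, h2, rfl⟩
      · obtain ⟨W, Y2, h3, h4, h5⟩ := s.h1 _ h2
        exact ⟨W + Z, Y2 + Z, Cm.dls_add h3 (Gm.dls.refl _),
          Cm.mv_add.mpr (Or.inl ⟨_, h4, rfl⟩), h5.add Z⟩
      · exact ⟨Y + Z, Y + Z1, Gm.dls.refl _, Cm.mv_add.mpr (Or.inr ⟨_, h2, rfl⟩), hXY.add Z1⟩
    · rcases Cm.mv_add.mp h1 with ⟨Y1, h2, rfl⟩ | ⟨Z1, h2, rfl⟩
      · obtain ⟨X1, h3, Y2, h4, h5⟩ := s.h2 _ h2
        exact ⟨X1 + Z, Cm.mv_add.mpr (Or.inl ⟨_, h3, rfl⟩), Y2 + Z,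
          Cm.dls_add h4 (Gm.dls.refl _), h5.add Z⟩
      · exact ⟨X + Z1, Cm.mv_add.mpr (Or.inr ⟨_, h2, rfl⟩), Y + Z1, Gm.dls.refl _, hXY.add Z1⟩
    · rcases Cm.dl_add.mp h1 with ⟨X1, h2, rfl⟩ | ⟨Z1, h2, rfl⟩
      · obtain ⟨Y1, h3, h4⟩ := s.h3 _ h2
        exact ⟨Y1 + Z, Cm.dls_add h3 (Gm.dls.refl _), h4.add Z⟩
      · exact ⟨Y + Z1, Gm.dls.one (Cm.dl_add.mpr (Or.inr ⟨_, h2, rfl⟩)), hXY.add Z1⟩
  | cut b c => intro _; exact sim_cut b c
  | mark x y c => intro _; exact sim_mark x y c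

/-- Bounds for a relaxed position are bounds for the position. -/
theorem P_relax {u t : ℤ} {X X' : Multiset K} {m : ℤ} (h : Rx X X') (hP : pg.P u t X' 0 m) :
    pg.P u t X 0 m :=
  Gm.P.sim Rx (fun _ _ h => (Rx.sim_aux _ h le_rfl).h1) (fun _ _ h => (Rx.sim_aux _ h le_rfl).h2)
    (fun _ _ h => (Rx.sim_aux _ h le_rfl).h3) Cm.term_zero _ X X' le_rfl h t m hP

/-- Bounds for the two parts of a cut edge. -/
theorem P_cut {u t : ℤ} {b c : MB} {m m' : ℤ} (h1 : pg.P u t {(mk b, .e)} 0 m)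
    (h2 : pg.P u t {(mk c, .e)} 0 m') : pg.P u t {(b, c)} 0 (m + m') := by
  refine P_relax (Rx.cut b c) ?_
  have := Cm.P_add h1 h2
  simpa using this

end Pool.Agent.Helper44.Idg
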