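import Pool.Agent.Helper44.Idg.Theory

/-!
Positions as multisets of components; the order is compatible with sums and with
bisimulations.
-/

namespace Pool.Agent.Helper44.Idg

/-- the moves and deletions of a component -/
structure Cm (K : Type) where
  cmv : K → Multiset K → Prop
  cdl : K → Multiset K → Prop
  size : K → ℕ
  lt : ∀ {k F}, cmv k F → (F.map size).sum < size k
  dl_lt : ∀ {k F}, cdl k F → (F.map size).sum < size k
  dl_mv : ∀ {k F}, cdl k F → ∃ F', cmv k F'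

namespace Cm

variable {K : Type} (c : Cm K)

/-- apply a component relation to one component of a position -/
def lift (r : K → Multiset K → Prop) (X Z : Multiset K) : Prop :=
  ∃ k X0 F, X = k ::ₘ X0 ∧ r k F ∧ Z = F + X0

/-- the game on multisets of components -/
def pos : Gm (Multiset K) where
  mv := lift c.cmv
  dl := lift c.cdl
  sz X := (X.map c.size).sum
  dl_lt := by
    rintro X Z ⟨k, X0, F, rfl, h, rfl⟩
    have := c.dl_lt h
    simp only [Multiset.map_add, Multiset.sum_add, Multiset.map_cons, Multiset.sum_cons]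
    omega
  dl_mv := by
    rintro X Z ⟨k, X0, F, rfl, h, rfl⟩
    obtain ⟨F', h'⟩ := c.dl_mv h
    exact ⟨F' + X0, k, X0, F', rfl, h', rfl⟩
  lt := by
    rintro X Z ⟨k, X0, F, rfl, h, rfl⟩
    have := c.lt h
    simp only [Multiset.map_add, Multiset.sum_add, Multiset.map_cons, Multiset.sum_cons]
    omega

variable {c}

theorem lift_add {r : K → Multiset K → Prop} {X Y Z : Multiset K} : lift r (X + Y) Z ↔
    (∃ X', lift r X X' ∧ Z = X' + Y) ∨ (∃ Y', lift r Y Y' ∧ Z = X + Y') := by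
  constructor
  · rintro ⟨k, X0, F, h, hc, rfl⟩
    have hk : k ∈ X + Y := by rw [h]; exact Multiset.mem_cons_self _ _
    rw [Multiset.mem_add] at hk
    rcases hk with hk | hk
    · left
      obtain ⟨X1, rfl⟩ := Multiset.exists_cons_of_mem hk
      rw [Multiset.cons_add, Multiset.cons_inj_right] at h
      refine ⟨F + X1, ⟨k, X1, F, rfl, hc, rfl⟩, ?_⟩
      rw [← h, add_assoc]
    · right
      obtain ⟨Y1, rfl⟩ := Multiset.exists_cons_of_mem hk
      rw [Multiset.add_cons, Multiset.cons_inj_right] at h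
      refine ⟨F + Y1, ⟨k, Y1, F, rfl, hc, rfl⟩, ?_⟩
      rw [← h, ← add_assoc, ← add_assoc, add_comm F X]
  · rintro (⟨X', ⟨k, X0, F, rfl, hc, rfl⟩, rfl⟩ | ⟨Y', ⟨k, X0, F, rfl, hc, rfl⟩, rfl⟩)
    · exact ⟨k, X0 + Y, F, by rw [Multiset.cons_add], hc, by rw [add_assoc]⟩
    · exact ⟨k, X + X0, F, by rw [Multiset.add_cons], hc, by
        rw [← add_assoc, ← add_assoc, add_comm F X]⟩

theorem mv_add {X Y Z : Multiset K} : c.pos.mv (X + Y) Z ↔
    (∃ X', c.pos.mv X X' ∧ Z = X' + Y) ∨ (∃ Y', c.pos.mv Y Y' ∧ Z = X + Y') := lift_add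

theorem dl_add {X Y Z : Multiset K} : c.pos.dl (X + Y) Z ↔
    (∃ X', c.pos.dl X X' ∧ Z = X' + Y) ∨ (∃ Y', c.pos.dl Y Y' ∧ Z = X + Y') := lift_add

theorem dls_add {X X' Y Y' : Multiset K} (h : c.pos.dls X X') (h' : c.pos.dls Y Y') :
    c.pos.dls (X + Y) (X' + Y') := by
  have h1 : ∀ {X X' : Multiset K} (Y : Multiset K), c.pos.dls X X' →
      c.pos.dls (X + Y) (X' + Y) := by
    intro X X' Y h
    induction h with
    | refl => exact Gm.dls.refl _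
    | tail _ h2 ih => exact ih.trans (Gm.dls.one (dl_add.mpr (Or.inl ⟨_, h2, rfl⟩)))
  refine (h1 Y h).trans ?_
  rw [add_comm X' Y, add_comm X' Y']
  exact h1 X' h'

theorem lift_singleton {r : K → Multiset K → Prop} {k : K} {Z : Multiset K} :
    lift r {k} Z ↔ r k Z := by
  constructor
  · rintro ⟨k', X0, F, h, hc, rfl⟩
    rw [Multiset.singleton_eq_cons_iff] at h
    obtain ⟨rfl, rfl⟩ := h
    simpa using hc
  · intro h
    exact ⟨k, 0, Z, by simp, h, by simp⟩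

theorem mv_singleton {k : K} {Z : Multiset K} : c.pos.mv {k} Z ↔ c.cmv k Z := lift_singleton

theorem dl_singleton {k : K} {Z : Multiset K} : c.pos.dl {k} Z ↔ c.cdl k Z := lift_singleton

theorem term_zero : c.pos.term (0 : Multiset K) := by
  rintro X' ⟨k, X0, F, h, -⟩
  exact absurd h.symm (Multiset.cons_ne_zero)

theorem term_add {X Y : Multiset K} : c.pos.term (X + Y) ↔ c.pos.term X ∧ c.pos.term Y := by
  constructor
  · intro h
    exact ⟨fun X' hX => h _ (mv_add.mpr (Or.inl ⟨X', hX, rfl⟩)),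
      fun Y' hY => h _ (mv_add.mpr (Or.inr ⟨Y', hY, rfl⟩))⟩
  · rintro ⟨h1, h2⟩ Z hZ
    rcases mv_add.mp hZ with ⟨X', hX, -⟩ | ⟨Y', hY, -⟩
    · exact h1 _ hX
    · exact h2 _ hY

theorem add_aux {u : ℤ} : ∀ (n : ℕ) (X Y X' Y' : Multiset K),
    c.pos.sz X + c.pos.sz Y + c.pos.sz X' + c.pos.sz Y' ≤ n →
    (∀ t m m', c.pos.P u t X Y m → c.pos.P u t X' Y' m' →
      c.pos.P u t (X + X') (Y + Y') (m + m')) ∧
    (∀ t m m', c.pos.R u t X Y m → c.pos.P u t X' Y' m' →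
      c.pos.R u t (X + X') (Y + Y') (m + m')) := by
  intro n
  induction n using Nat.strong_induction_on with
  | _ n ih =>
  have hS : ∀ X Y X' Y' : Multiset K,
      c.pos.sz X + c.pos.sz Y + c.pos.sz X' + c.pos.sz Y' < n → ∀ t m m' M, M = m + m' →
      c.pos.P u t X Y m → c.pos.P u t X' Y' m' → c.pos.P u t (X + X') (Y + Y') M := by
    rintro X Y X' Y' h t m m' M rfl
    exact (ih _ h X Y X' Y' le_rfl).1 t m m'
  have hR : ∀ X Y X' Y' : Multiset K,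
      c.pos.sz X + c.pos.sz Y + c.pos.sz X' + c.pos.sz Y' < n → ∀ t m m' M, M = m + m' →
      c.pos.R u t X Y m → c.pos.P u t X' Y' m' → c.pos.R u t (X + X') (Y + Y') M := by
    rintro X Y X' Y' h t m m' M rfl
    exact (ih _ h X Y X' Y' le_rfl).2 t m m'
  have hR' : ∀ X Y X' Y' : Multiset K,
      c.pos.sz X + c.pos.sz Y + c.pos.sz X' + c.pos.sz Y' < n → ∀ t m m' M, M = m + m' →
      c.pos.P u t X Y m → c.pos.R u t X' Y' m' → c.pos.R u t (X + X') (Y + Y') M := by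
    intro X Y X' Y' h t m m' M hM h1 h2
    rw [add_comm X X', add_comm Y Y']
    exact hR X' Y' X Y (by omega) t m' m M (by rw [hM, add_comm]) h2 h1
  have core : ∀ X Y X' Y' : Multiset K,
      c.pos.sz X + c.pos.sz Y + c.pos.sz X' + c.pos.sz Y' ≤ n → ∀ τ m m',
      c.pos.Q u τ X Y m → c.pos.P u τ X' Y' m' → c.pos.Q u τ (X + X') (Y + Y') (m + m') := by
    intro X Y X' Y' hn τ m m' q h2
    refine ⟨q.nn, ?_, ?_, ?_, ?_⟩
    · intro h
      have h' : 0 < τ ∨ c.pos.term Y := h.imp_right (fun h => (term_add.mp h).1)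
      rcases q.A h' with ⟨X1, hX1, h3⟩ | ⟨Y1, hY1, h3⟩
      · have := c.pos.lt hX1
        exact Or.inl ⟨X1 + X', mv_add.mpr (Or.inl ⟨X1, hX1, rfl⟩),
          hS X1 Y X' Y' (by omega) _ _ _ _ (by ring) h3 h2⟩
      · have := c.pos.lt hY1
        exact Or.inr ⟨Y1 + Y', mv_add.mpr (Or.inl ⟨Y1, hY1, rfl⟩),
          hS X Y1 X' Y' (by omega) _ _ _ _ (by ring) h3 h2⟩
    · intro Z hZ
      rcases mv_add.mp hZ with ⟨X1, hX1, rfl⟩ | ⟨X1, hX1, rfl⟩
      · have := c.pos.lt hX1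
        exact hR X1 Y X' Y' (by omega) _ _ _ _ (by ring) (q.B X1 hX1) h2
      · have := c.pos.lt hX1
        exact hR' X Y X1 Y' (by omega) _ _ _ _ (by ring) (q.toP le_rfl) (h2.toB hX1)
    · intro Z hZ
      rcases mv_add.mp hZ with ⟨Y1, hY1, rfl⟩ | ⟨Y1, hY1, rfl⟩
      · have := c.pos.lt hY1
        exact hR X Y1 X' Y' (by omega) _ _ _ _ (by ring) (q.C Y1 hY1) h2
      · have := c.pos.lt hY1
        exact hR' X Y X' Y1 (by omega) _ _ _ _ (by ring) (q.toP le_rfl) (h2.toC hY1)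
    · intro Z hZ
      rcases dl_add.mp hZ with ⟨X1, hX1, rfl⟩ | ⟨X1, hX1, rfl⟩
      · obtain ⟨Y1, h3, h4⟩ := q.D X1 hX1
        have := c.pos.dl_lt hX1
        have := h3.le
        exact ⟨Y1 + Y', dls_add h3 (Gm.dls.refl _), hS X1 Y1 X' Y' (by omega) _ _ _ _ rfl h4 h2⟩
      · obtain ⟨Y1, h3, h4⟩ := h2.toD hX1
        have := c.pos.dl_lt hX1
        have := h3.le
        exact ⟨Y + Y1, dls_add (Gm.dls.refl _) h3,
          hS X Y X1 Y1 (by omega) _ _ _ _ rfl (q.toP le_rfl) h4⟩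
  intro X Y X' Y' hn
  have core' : ∀ τ m m', c.pos.P u τ X Y m → c.pos.Q u τ X' Y' m' →
      c.pos.Q u τ (X + X') (Y + Y') (m + m') := by
    intro τ m m' h1 h2
    rw [add_comm X X', add_comm Y Y', add_comm m m']
    exact core X' Y' X Y (by omega) τ m' m h2 h1
  have main : ∀ t m m', c.pos.P u t X Y m → c.pos.P u t X' Y' m' →
      c.pos.P u t (X + X') (Y + Y') (m + m') := by
    intro t m m' h1 h2
    rcases Gm.P_iff.mp h1 with ⟨hX, hY, hm⟩ | ⟨τ1, ht1, q1⟩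
    · rcases Gm.P_iff.mp h2 with ⟨hX', hY', hm'⟩ | ⟨τ2, ht2, q2⟩
      · exact Gm.P.of_term (term_add.mpr ⟨hX, hX'⟩) (term_add.mpr ⟨hY, hY'⟩) (by linarith)
      · exact (core' τ2 m m' (Gm.P.of_term hX hY hm) q2).toP ht2
    · rcases Gm.P_iff.mp h2 with ⟨hX', hY', hm'⟩ | ⟨τ2, ht2, q2⟩
      · exact (core X Y X' Y' hn τ1 m m' q1 (Gm.P.of_term hX' hY' hm')).toP ht1
      · by_cases hc : τ2 ≤ τ1
        · exact (core X Y X' Y' hn τ1 m m' q1 (q2.toP hc)).toP ht1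
        · exact (core' τ2 m m' (q1.toP (not_le.mp hc).le) q2).toP ht2
  refine ⟨main, ?_⟩
  intro t m m' h1 h2
  rcases h1 with (⟨X1, hX1, h3⟩ | ⟨Y1, hY1, h3⟩) | h3
  · have := c.pos.lt hX1
    exact Or.inl (Or.inl ⟨X1 + X', mv_add.mpr (Or.inl ⟨X1, hX1, rfl⟩),
      hS X1 Y X' Y' (by omega) _ _ _ _ (by ring) h3 h2⟩)
  · have := c.pos.lt hY1
    exact Or.inl (Or.inr ⟨Y1 + Y', mv_add.mpr (Or.inl ⟨Y1, hY1, rfl⟩),
      hS X Y1 X' Y' (by omega) _ _ _ _ (by ring) h3 h2⟩)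
  · refine Or.inr ?_
    have := main t _ _ h3 h2
    rwa [show m + m' + t = m + t + m' by ring]

theorem P_add {u t : ℤ} {X Y X' Y' : Multiset K} {m m' : ℤ} (h1 : c.pos.P u t X Y m)
    (h2 : c.pos.P u t X' Y' m') : c.pos.P u t (X + X') (Y + Y') (m + m') :=
  (add_aux _ X Y X' Y' le_rfl).1 t m m' h1 h2

end Cm

/-- invariance under a bisimulation -/
theorem Gm.bisim {α : Type} {g : Gm α} {u : ℤ} (S : α → α → Prop)
    (h1 : ∀ X Y, S X Y → ∀ X', g.mv X X' → ∃ Y', g.mv Y Y' ∧ S X' Y')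
    (h2 : ∀ X Y, S X Y → ∀ Y', g.mv Y Y' → ∃ X', g.mv X X' ∧ S X' Y')
    (h3 : ∀ X Y, S X Y → ∀ X', g.dl X X' → ∃ Y', g.dl Y Y' ∧ S X' Y')
    (h4 : ∀ X Y, S X Y → ∀ Y', g.dl Y Y' → ∃ X', g.dl X X' ∧ S X' Y') :
    ∀ (n : ℕ) (X Y X' Y' : α), g.sz X + g.sz Y ≤ n → S X X' → S Y Y' → ∀ t m,
      g.P u t X Y m → g.P u t X' Y' m := by
  intro n
  induction n using Nat.strong_induction_on with
  | _ n ih =>
  intro X Y X' Y' hn hX hY t m h
  have hterm : ∀ X X', S X X' → g.term X → g.term X' := by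
    intro X X' hS hX Z hZ
    obtain ⟨Z', hZ', -⟩ := h2 X X' hS Z hZ
    exact hX _ hZ'
  have hterm' : ∀ X X', S X X' → g.term X' → g.term X := by
    intro X X' hS hX Z hZ
    obtain ⟨Z', hZ', -⟩ := h1 X X' hS Z hZ
    exact hX _ hZ'
  have hdls : ∀ X X' Y, S X X' → g.dls X Y → ∃ Y', g.dls X' Y' ∧ S Y Y' := by
    intro X X' Y hS h
    induction h with
    | refl => exact ⟨X', Gm.dls.refl _, hS⟩
    | tail _ h5 ih =>
      obtain ⟨Y', h6, h7⟩ := ih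
      obtain ⟨Y'', h8, h9⟩ := h3 _ _ h7 _ h5
      exact ⟨Y'', h6.trans (Gm.dls.one h8), h9⟩
  have hAm : ∀ X Y X' Y' : α, g.sz X + g.sz Y ≤ n → S X X' → S Y Y' → ∀ t m,
      g.Am u t X Y m → g.Am u t X' Y' m := by
    rintro X Y X' Y' hn hX hY t m (⟨X1, hX1, h5⟩ | ⟨Y1, hY1, h5⟩)
    · have := g.lt hX1
      obtain ⟨X1', h6, h7⟩ := h1 X X' hX X1 hX1
      exact Or.inl ⟨X1', h6, ih _ (by omega) X1 Y X1' Y' le_rfl h7 hY _ _ h5⟩
    · have := g.lt hY1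
      obtain ⟨Y1', h6, h7⟩ := h1 Y Y' hY Y1 hY1
      exact Or.inr ⟨Y1', h6, ih _ (by omega) X Y1 X' Y1' le_rfl hX h7 _ _ h5⟩
  have hR : ∀ X Y X' Y' : α, g.sz X + g.sz Y < n → S X X' → S Y Y' → ∀ t m,
      g.R u t X Y m → g.R u t X' Y' m := by
    rintro X Y X' Y' hn hX hY t m (h | h)
    · exact Or.inl (hAm X Y X' Y' (by omega) hX hY t m h)
    · exact Or.inr (ih _ hn X Y X' Y' le_rfl hX hY _ _ h)
  rcases Gm.P_iff.mp h with ⟨hX', hY', hm⟩ | ⟨τ, ht, q⟩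
  · exact Gm.P.of_term (hterm _ _ hX hX') (hterm _ _ hY hY') hm
  · refine Gm.Q.toP (τ := τ) ⟨q.nn, ?_, ?_, ?_, ?_⟩ ht
    · intro h
      exact hAm X Y X' Y' hn hX hY _ _ (q.A (h.imp_right (hterm' _ _ hY)))
    · intro Z hZ
      obtain ⟨Z', h5, h6⟩ := h2 X X' hX Z hZ
      have := g.lt h5
      exact hR Z' Y Z Y' (by omega) h6 hY _ _ (q.B Z' h5)
    · intro Z hZ
      obtain ⟨Z', h5, h6⟩ := h2 Y Y' hY Z hZ
      have := g.lt h5
      exact hR X Z' X' Z (by omega) hX h6 _ _ (q.C Z' h5)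
    · intro Z hZ
      obtain ⟨Z', h5, h6⟩ := h4 X X' hX Z hZ
      obtain ⟨Y1, h7, h8⟩ := q.D Z' h5
      obtain ⟨Y2, h9, h10⟩ := hdls Y Y' Y1 hY h7
      have := g.dl_lt h5
      have := h7.le
      exact ⟨Y2, h9, ih _ (by omega) Z' Y1 Z Y2 le_rfl h6 h10 _ _ h8⟩

end Pool.Agent.Helper44.Idg
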