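import Mathlib

/-!
An order with temperatures on differences of two positions of a scoring game in which both
players have the same moves. `X` is the real position, `Y` the virtual position; the total of a
play is `u` times (moves in `X` minus moves in `Y`). The first player (`Left`) maximises.
Besides the moves there are deletions, which Left may make in `X` for free at any moment before
his move; they have to be answered by deletions in `Y`.
-/

namespace Pool.Agent.Helper44.Idg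

/-- A finite game in which both players have the same moves, with deletions. -/
structure Gm (α : Type) where
  mv : α → α → Prop
  dl : α → α → Prop
  sz : α → ℕ
  lt : ∀ {x y}, mv x y → sz y < sz x
  dl_lt : ∀ {x y}, dl x y → sz y < sz x
  dl_mv : ∀ {x y}, dl x y → ∃ z, mv x z

namespace Gm

variable {α : Type} (g : Gm α)

def term (X : α) : Prop := ∀ X', ¬ g.mv X X'

def dls (X Y : α) : Prop := Relation.ReflTransGen g.dl X Y

variable {g}

theorem dls.le {X Y : α} (h : g.dls X Y) : g.sz Y ≤ g.sz X := by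
  induction h with
  | refl => exact le_rfl
  | tail _ h ih => exact (g.dl_lt h).le.trans ih

theorem dls.refl (X : α) : g.dls X X := Relation.ReflTransGen.refl

theorem dls.trans {X Y Z : α} (h : g.dls X Y) (h' : g.dls Y Z) : g.dls X Z :=
  Relation.ReflTransGen.trans h h'

theorem dls.one {X Y : α} (h : g.dl X Y) : g.dls X Y := Relation.ReflTransGen.single h

theorem dls.of_term {X Y : α} (h : g.dls X Y) (hX : g.term X) : Y = X := by
  induction h with
  | refl => rfl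
  | tail _ h2 ih =>
    subst ih
    obtain ⟨Z, hZ⟩ := g.dl_mv h2
    exact absurd hZ (hX _)

variable (g)

/-- `P u t X Y m`: Right keeps the total below `m` (if he starts) and below `m + t` (if Left
starts), and this persists in sums at temperature `≥ t`. -/
def P (u : ℤ) (t : ℤ) (X Y : α) (m : ℤ) : Prop :=
  (g.term X ∧ g.term Y ∧ 0 ≤ m) ∨
  ∃ τ, 0 ≤ τ ∧ τ ≤ t ∧
    ((0 < τ ∨ g.term Y) →
      (∃ X', ∃ _ : g.mv X X', P u τ X' Y (m - τ - u)) ∨
      (∃ Y', ∃ _ : g.mv Y Y', P u τ X Y' (m - τ + u))) ∧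
    (∀ X', ∀ _ : g.mv X X',
      (∃ X'', ∃ _ : g.mv X' X'', P u τ X'' Y (m - u - u)) ∨
      (∃ Y', ∃ _ : g.mv Y Y', P u τ X' Y' (m - u + u)) ∨ P u τ X' Y (m - u + τ)) ∧
    (∀ Y', ∀ _ : g.mv Y Y',
      (∃ X', ∃ _ : g.mv X X', P u τ X' Y' (m + u - u)) ∨
      (∃ Y'', ∃ _ : g.mv Y' Y'', P u τ X Y'' (m + u + u)) ∨ P u τ X Y' (m + u + τ)) ∧
    (∀ X', ∀ _ : g.dl X X', ∃ Y', ∃ _ : g.dls Y Y', P u τ X' Y' m)
termination_by g.sz X + g.sz Y
decreasing_by
  all_goals
    first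
      | (have h1 := g.lt ‹g.mv X X'›; have h2 := g.lt ‹g.mv X' X''›; omega)
      | (have h1 := g.lt ‹g.mv Y Y'›; have h2 := g.lt ‹g.mv Y' Y''›; omega)
      | (have h1 := g.lt ‹g.mv X X'›; have h2 := g.lt ‹g.mv Y Y'›; omega)
      | (have h1 := g.lt ‹g.mv X X'›; omega)
      | (have h1 := g.lt ‹g.mv Y Y'›; omega)
      | (have h1 := g.dl_lt ‹g.dl X X'›; have h2 := dls.le ‹g.dls Y Y'›; omega)

/-- a move of Right leading to `P` -/
def Am (u τ : ℤ) (X Y : α) (m : ℤ) : Prop :=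
  (∃ X', g.mv X X' ∧ g.P u τ X' Y (m - u)) ∨ (∃ Y', g.mv Y Y' ∧ g.P u τ X Y' (m + u))

/-- Right to move, at temperature `τ` -/
def R (u τ : ℤ) (X Y : α) (m : ℤ) : Prop :=
  g.Am u τ X Y m ∨ g.P u τ X Y (m + τ)

/-- the second alternative in the definition of `P`, with temperature exactly `τ` -/
structure Q (u τ : ℤ) (X Y : α) (m : ℤ) : Prop where
  nn : 0 ≤ τ
  A : (0 < τ ∨ g.term Y) → g.Am u τ X Y (m - τ)
  B : ∀ X', g.mv X X' → g.R u τ X' Y (m - u)
  C : ∀ Y', g.mv Y Y' → g.R u τ X Y' (m + u)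
  D : ∀ X', g.dl X X' → ∃ Y', g.dls Y Y' ∧ g.P u τ X' Y' m

variable {g}

theorem P_iff {u t : ℤ} {X Y : α} {m : ℤ} :
    g.P u t X Y m ↔ (g.term X ∧ g.term Y ∧ 0 ≤ m) ∨ ∃ τ, τ ≤ t ∧ g.Q u τ X Y m := by
  rw [P]
  constructor
  · rintro (h | ⟨τ, h0, ht, hA, hB, hC, hD⟩)
    · exact Or.inl h
    · refine Or.inr ⟨τ, ht, h0, ?_, ?_, ?_, ?_⟩
      · intro h
        rcases hA h with ⟨X', h1, h2⟩ | ⟨Y', h1, h2⟩
        · exact Or.inl ⟨X', h1, h2⟩
        · exact Or.inr ⟨Y', h1, h2⟩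
      · intro X' hX
        rcases hB X' hX with ⟨X'', h1, h2⟩ | ⟨Y', h1, h2⟩ | h
        · exact Or.inl (Or.inl ⟨X'', h1, h2⟩)
        · exact Or.inl (Or.inr ⟨Y', h1, h2⟩)
        · exact Or.inr h
      · intro Y' hY
        rcases hC Y' hY with ⟨X', h1, h2⟩ | ⟨Y'', h1, h2⟩ | h
        · exact Or.inl (Or.inl ⟨X', h1, h2⟩)
        · exact Or.inl (Or.inr ⟨Y'', h1, h2⟩)
        · exact Or.inr h
      · intro X' hX
        obtain ⟨Y', h1, h2⟩ := hD X' hX
        exact ⟨Y', h1, h2⟩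
  · rintro (h | ⟨τ, ht, h0, hA, hB, hC, hD⟩)
    · exact Or.inl h
    · refine Or.inr ⟨τ, h0, ht, ?_, ?_, ?_, ?_⟩
      · intro h
        rcases hA h with ⟨X', h1, h2⟩ | ⟨Y', h1, h2⟩
        · exact Or.inl ⟨X', h1, h2⟩
        · exact Or.inr ⟨Y', h1, h2⟩
      · intro X' hX
        rcases hB X' hX with (⟨X'', h1, h2⟩ | ⟨Y', h1, h2⟩) | h
        · exact Or.inl ⟨X'', h1, h2⟩
        · exact Or.inr (Or.inl ⟨Y', h1, h2⟩)
        · exact Or.inr (Or.inr h)
      · intro Y' hY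
        rcases hC Y' hY with (⟨X', h1, h2⟩ | ⟨Y'', h1, h2⟩) | h
        · exact Or.inl ⟨X', h1, h2⟩
        · exact Or.inr (Or.inl ⟨Y'', h1, h2⟩)
        · exact Or.inr (Or.inr h)
      · intro X' hX
        obtain ⟨Y', h1, h2⟩ := hD X' hX
        exact ⟨Y', h1, h2⟩

theorem P.of_term {u t : ℤ} {X Y : α} {m : ℤ} (hX : g.term X) (hY : g.term Y) (hm : 0 ≤ m) :
    g.P u t X Y m := P_iff.mpr (Or.inl ⟨hX, hY, hm⟩)

theorem Q.toP {u t τ : ℤ} {X Y : α} {m : ℤ} (h : g.Q u τ X Y m) (ht : τ ≤ t) :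
    g.P u t X Y m := P_iff.mpr (Or.inr ⟨τ, ht, h⟩)

theorem P.mono_t {u t t' : ℤ} {X Y : α} {m : ℤ} (h : g.P u t X Y m) (ht : t ≤ t') :
    g.P u t' X Y m := by
  rw [P_iff] at h ⊢
  rcases h with h | ⟨τ, h1, h2⟩
  · exact Or.inl h
  · exact Or.inr ⟨τ, h1.trans ht, h2⟩

theorem mono_aux {u : ℤ} : ∀ (n : ℕ) (X Y : α), g.sz X + g.sz Y ≤ n → ∀ t m m',
    g.P u t X Y m → m ≤ m' → g.P u t X Y m' := by
  intro n
  induction n using Nat.strong_induction_on with
  | _ n ih =>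
  intro X Y hn t m m' h hm
  have hAm : ∀ X' Y' : α, g.sz X' + g.sz Y' < n → ∀ t m m', m ≤ m' →
      g.P u t X' Y' m → g.P u t X' Y' m' := fun X' Y' h1 t m m' hm h =>
    ih _ h1 X' Y' le_rfl t m m' h hm
  have hAm2 : ∀ X' Y' : α, g.sz X' + g.sz Y' ≤ n → ∀ t m m', m ≤ m' →
      g.Am u t X' Y' m → g.Am u t X' Y' m' := by
    rintro X' Y' h1 t m m' hm (⟨X'', h2, h3⟩ | ⟨Y'', h2, h3⟩)
    · have := g.lt h2
      exact Or.inl ⟨X'', h2, hAm X'' Y' (by omega) _ _ _ (by linarith) h3⟩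
    · have := g.lt h2
      exact Or.inr ⟨Y'', h2, hAm X' Y'' (by omega) _ _ _ (by linarith) h3⟩
  rw [P_iff] at h ⊢
  rcases h with ⟨h1, h2, h3⟩ | ⟨τ, h1, h2⟩
  · exact Or.inl ⟨h1, h2, h3.trans hm⟩
  · refine Or.inr ⟨τ, h1, h2.nn, ?_, ?_, ?_, ?_⟩
    · intro h
      exact hAm2 X Y hn _ _ _ (by linarith) (h2.A h)
    · intro X' hX
      have := g.lt hX
      rcases h2.B X' hX with h | h
      · exact Or.inl (hAm2 X' Y (by omega) _ _ _ (by linarith) h)
      · exact Or.inr (hAm X' Y (by omega) _ _ _ (by linarith) h)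
    · intro Y' hY
      have := g.lt hY
      rcases h2.C Y' hY with h | h
      · exact Or.inl (hAm2 X Y' (by omega) _ _ _ (by linarith) h)
      · exact Or.inr (hAm X Y' (by omega) _ _ _ (by linarith) h)
    · intro X' hX
      obtain ⟨Y', h3, h4⟩ := h2.D X' hX
      have := g.dl_lt hX
      have := h3.le
      exact ⟨Y', h3, hAm X' Y' (by omega) _ _ _ hm h4⟩

theorem P.mono {u t t' : ℤ} {X Y : α} {m m' : ℤ} (h : g.P u t X Y m) (ht : t ≤ t')
    (hm : m ≤ m') : g.P u t' X Y m' :=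
  (mono_aux _ X Y le_rfl t m m' h hm).mono_t ht

theorem Am.mono {u t t' : ℤ} {X Y : α} {m m' : ℤ} (h : g.Am u t X Y m) (ht : t ≤ t')
    (hm : m ≤ m') : g.Am u t' X Y m' := by
  rcases h with ⟨X', h1, h2⟩ | ⟨Y', h1, h2⟩
  · exact Or.inl ⟨X', h1, h2.mono ht (by linarith)⟩
  · exact Or.inr ⟨Y', h1, h2.mono ht (by linarith)⟩

theorem R.mono {u t t' : ℤ} {X Y : α} {m m' : ℤ} (h : g.R u t X Y m) (ht : t ≤ t')
    (hm : m ≤ m') : g.R u t' X Y m' := by
  rcases h with h | h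
  · exact Or.inl (h.mono ht hm)
  · exact Or.inr (h.mono ht (by linarith))

theorem P.toC {u t : ℤ} {X Y Y' : α} {m : ℤ} (h : g.P u t X Y m) (hY : g.mv Y Y') :
    g.R u t X Y' (m + u) := by
  rcases P_iff.mp h with ⟨-, h2, -⟩ | ⟨τ, h1, h2⟩
  · exact absurd hY (h2 _)
  · exact (h2.C Y' hY).mono h1 le_rfl

theorem P.toB {u t : ℤ} {X X' Y : α} {m : ℤ} (h : g.P u t X Y m) (hX : g.mv X X') :
    g.R u t X' Y (m - u) := by
  rcases P_iff.mp h with ⟨h2, -, -⟩ | ⟨τ, h1, h2⟩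
  · exact absurd hX (h2 _)
  · exact (h2.B X' hX).mono h1 le_rfl

/-- mirroring -/
theorem P.refl (u : ℤ) (X : α) : g.P u 0 X X 0 := by
  induction h : g.sz X using Nat.strong_induction_on generalizing X with
  | _ n ih =>
  by_cases hX : g.term X
  · exact P.of_term hX hX le_rfl
  · refine Q.toP (τ := 0) ⟨le_rfl, ?_, ?_, ?_, ?_⟩ le_rfl
    · rintro (h0 | h0)
      · exact absurd h0 (lt_irrefl _)
      · exact absurd h0 hX
    · intro X' h'
      refine Or.inl (Or.inr ⟨X', h', ?_⟩)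
      have := g.lt h'
      have h2 := ih (g.sz X') (by omega) X' rfl
      simpa using h2
    · intro X' h'
      refine Or.inl (Or.inl ⟨X', h', ?_⟩)
      have := g.lt h'
      have h2 := ih (g.sz X') (by omega) X' rfl
      simpa using h2
    · intro X' h'
      have := g.dl_lt h'
      exact ⟨X', dls.one h', ih (g.sz X') (by omega) X' rfl⟩

theorem P.toD {u t : ℤ} {X X' Y : α} {m : ℤ} (h : g.P u t X Y m) (hX : g.dl X X') :
    ∃ Y', g.dls Y Y' ∧ g.P u t X' Y' m := by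
  rcases P_iff.mp h with ⟨h2, -, -⟩ | ⟨τ, h1, h2⟩
  · obtain ⟨Z, hZ⟩ := g.dl_mv hX
    exact absurd hZ (h2 _)
  · obtain ⟨Y', h3, h4⟩ := h2.D X' hX
    exact ⟨Y', h3, h4.mono_t h1⟩

theorem P.toDs {u t : ℤ} {X X' Y : α} {m : ℤ} (h : g.P u t X Y m) (hX : g.dls X X') :
    ∃ Y', g.dls Y Y' ∧ g.P u t X' Y' m := by
  induction hX with
  | refl => exact ⟨Y, dls.refl _, h⟩
  | tail _ h2 ih =>
    obtain ⟨Y', h3, h4⟩ := ih
    obtain ⟨Y'', h5, h6⟩ := h4.toD h2
    exact ⟨Y'', h3.trans h5, h6⟩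

theorem trans_aux {u : ℤ} : ∀ (n : ℕ) (X Y Z : α), g.sz X + g.sz Y + g.sz Z ≤ n →
    (∀ t m M, g.P u t X Y m → g.P u t Y Z M → g.P u t X Z (m + M)) ∧
    (∀ t m M, g.R u t X Y m → g.P u t Y Z M → g.R u t X Z (m + M)) ∧
    (∀ t m M, g.P u t X Y m → g.R u t Y Z M → g.R u t X Z (m + M)) := by
  intro n
  induction n using Nat.strong_induction_on with
  | _ n ih =>
  intro X Y Z hn
  have hT : ∀ X Y Z : α, g.sz X + g.sz Y + g.sz Z < n → ∀ t m M m', m' = m + M →
      g.P u t X Y m → g.P u t Y Z M → g.P u t X Z m' := by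
    rintro X Y Z h t m M m' rfl; exact (ih _ h X Y Z le_rfl).1 t m M
  have hR1 : ∀ X Y Z : α, g.sz X + g.sz Y + g.sz Z < n → ∀ t m M m', m' = m + M →
      g.R u t X Y m → g.P u t Y Z M → g.R u t X Z m' := by
    rintro X Y Z h t m M m' rfl; exact (ih _ h X Y Z le_rfl).2.1 t m M
  have hR2 : ∀ X Y Z : α, g.sz X + g.sz Y + g.sz Z < n → ∀ t m M m', m' = m + M →
      g.P u t X Y m → g.R u t Y Z M → g.R u t X Z m' := by
    rintro X Y Z h t m M m' rfl; exact (ih _ h X Y Z le_rfl).2.2 t m M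
  have main : ∀ t m M, g.P u t X Y m → g.P u t Y Z M → g.P u t X Z (m + M) := by
    intro t m M h1 h2
    rcases P_iff.mp h1 with ⟨hX, hY, hm⟩ | ⟨τ1, ht1, q1⟩
    · rcases P_iff.mp h2 with ⟨-, hZ, hM⟩ | ⟨τ2, ht2, q2⟩
      · exact P.of_term hX hZ (by linarith)
      · have h1' : g.P u τ2 X Y m := P.of_term hX hY hm
        refine Q.toP (τ := τ2) ⟨q2.nn, ?_, ?_, ?_, ?_⟩ ht2
        · intro h
          rcases q2.A h with ⟨Y', hY', -⟩ | ⟨Z', hZ', h3⟩
          · exact absurd hY' (hY _)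
          · have := g.lt hZ'
            exact Or.inr ⟨Z', hZ', hT X Y Z' (by omega) _ _ _ _ (by ring) h1' h3⟩
        · intro X' hX'
          exact absurd hX' (hX _)
        · intro Z' hZ'
          have := g.lt hZ'
          exact hR2 X Y Z' (by omega) _ _ _ _ (by ring) h1' (q2.C Z' hZ')
        · intro X' hX'
          obtain ⟨W, hW⟩ := g.dl_mv hX'
          exact absurd hW (hX _)
    · rcases P_iff.mp h2 with ⟨hY, hZ, hM⟩ | ⟨τ2, ht2, q2⟩
      · have h2' : g.P u τ1 Y Z M := P.of_term hY hZ hM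
        refine Q.toP (τ := τ1) ⟨q1.nn, ?_, ?_, ?_, ?_⟩ ht1
        · intro h
          rcases q1.A (Or.inr hY) with ⟨X', hX', h3⟩ | ⟨Y', hY', -⟩
          · have := g.lt hX'
            exact Or.inl ⟨X', hX', hT X' Y Z (by omega) _ _ _ _ (by ring) h3 h2'⟩
          · exact absurd hY' (hY _)
        · intro X' hX'
          have := g.lt hX'
          exact hR1 X' Y Z (by omega) _ _ _ _ (by ring) (q1.B X' hX') h2'
        · intro Z' hZ'
          exact absurd hZ' (hZ _)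
        · intro X' hX'
          obtain ⟨Y', h3, h4⟩ := q1.D X' hX'
          have := g.dl_lt hX'
          have := h3.of_term hY
          subst this
          exact ⟨Z, dls.refl _, hT X' Y' Z (by omega) _ _ _ _ rfl h4 h2'⟩
      · have key : ∀ τ, τ1 ≤ τ → τ2 ≤ τ → τ ≤ t →
            ((0 < τ ∨ g.term Z) → g.Am u τ X Z (m + M - τ)) → g.P u t X Z (m + M) := by
          intro τ h1τ h2τ hτ hA
          have h1' : g.P u τ X Y m := q1.toP h1τ
          have h2' : g.P u τ Y Z M := q2.toP h2τ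
          refine Q.toP (τ := τ) ⟨q1.nn.trans h1τ, hA, ?_, ?_, ?_⟩ hτ
          · intro X' hX'
            have := g.lt hX'
            exact hR1 X' Y Z (by omega) _ _ _ _ (by ring) ((q1.B X' hX').mono h1τ le_rfl) h2'
          · intro Z' hZ'
            have := g.lt hZ'
            exact hR2 X Y Z' (by omega) _ _ _ _ (by ring) h1' ((q2.C Z' hZ').mono h2τ le_rfl)
          · intro X' hX'
            obtain ⟨Y', h3, h4⟩ := q1.D X' hX'
            obtain ⟨Z', h5, h6⟩ := h2'.toDs h3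
            have := g.dl_lt hX'
            have := h3.le
            have := h5.le
            exact ⟨Z', h5, hT X' Y' Z' (by omega) _ _ _ _ rfl (h4.mono_t h1τ) h6⟩
        have h0 := q1.nn
        have h0' := q2.nn
        by_cases hc : τ2 < τ1
        · rcases q1.A (Or.inl (by linarith)) with ⟨X', hX', h3⟩ | ⟨Y', hY', h3⟩
          · have := g.lt hX'
            refine key τ1 le_rfl hc.le ht1 (fun _ => Or.inl ⟨X', hX', ?_⟩)
            exact hT X' Y Z (by omega) _ _ _ _ (by ring) h3 (q2.toP hc.le)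
          · have := g.lt hY'
            have h4 : g.R u τ1 X Z (m + M - τ1) := hR2 X Y' Z (by omega) _ _ _ _ (by ring) h3
              ((q2.B Y' hY').mono hc.le le_rfl)
            rcases h4 with h4 | h4
            · exact key τ1 le_rfl hc.le ht1 (fun _ => h4)
            · exact h4.mono ht1 (by linarith)
        · rw [not_lt] at hc
          by_cases hz : 0 < τ2 ∨ g.term Z
          · rcases q2.A hz with ⟨Y', hY', h3⟩ | ⟨Z', hZ', h3⟩
            · have := g.lt hY'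
              have h4 : g.R u τ2 X Z (m + M - τ2) := hR1 X Y' Z (by omega) _ _ _ _ (by ring)
                ((q1.C Y' hY').mono hc le_rfl) h3
              rcases h4 with h4 | h4
              · exact key τ2 hc le_rfl ht2 (fun _ => h4)
              · exact h4.mono ht2 (by linarith)
            · have := g.lt hZ'
              refine key τ2 hc le_rfl ht2 (fun _ => Or.inr ⟨Z', hZ', ?_⟩)
              exact hT X Y Z' (by omega) _ _ _ _ (by ring) (q1.toP hc) h3
          · exact key τ2 hc le_rfl ht2 (fun h => absurd h hz)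
  refine ⟨main, ?_, ?_⟩
  · intro t m M h1 h2
    rcases h1 with (⟨X', hX', h3⟩ | ⟨Y', hY', h3⟩) | h3
    · have := g.lt hX'
      exact Or.inl (Or.inl ⟨X', hX', hT X' Y Z (by omega) _ _ _ _ (by ring) h3 h2⟩)
    · have := g.lt hY'
      exact hR2 X Y' Z (by omega) _ _ _ _ (by ring) h3 (h2.toB hY')
    · refine Or.inr ?_
      have := main t _ _ h3 h2
      rwa [show m + M + t = m + t + M by ring]
  · intro t m M h1 h2
    rcases h2 with (⟨Y', hY', h3⟩ | ⟨Z', hZ', h3⟩) | h3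
    · have := g.lt hY'
      exact hR1 X Y' Z (by omega) _ _ _ _ (by ring) (h1.toC hY') h3
    · have := g.lt hZ'
      exact Or.inl (Or.inr ⟨Z', hZ', hT X Y Z' (by omega) _ _ _ _ (by ring) h1 h3⟩)
    · refine Or.inr ?_
      have := main t _ _ h1 h3
      rwa [show m + M + t = m + (M + t) by ring]

/-- A simulation `S X X'` of the real position `X` by the relaxed real position `X'`, with
deletions in `X'`: before the moves of Left and after the moves of Right. -/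
theorem P.sim (S : α → α → Prop)
    (h1 : ∀ X X', S X X' → ∀ Y, g.mv X Y → ∃ W Y2, g.dls X' W ∧ g.mv W Y2 ∧ S Y Y2)
    (h2 : ∀ X X', S X X' → ∀ Y1, g.mv X' Y1 → ∃ Y, g.mv X Y ∧ ∃ Y2, g.dls Y1 Y2 ∧ S Y Y2)
    (h3 : ∀ X X', S X X' → ∀ Y, g.dl X Y → ∃ Y1, g.dls X' Y1 ∧ S Y Y1) {u : ℤ} {E : α}
    (hE : g.term E) :
    ∀ (n : ℕ) (X X' : α), g.sz X ≤ n → S X X' → ∀ t m, g.P u t X' E m → g.P u t X E m := by
  intro n
  induction n using Nat.strong_induction_on with
  | _ n ih =>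
  intro X X' hn hS t m h
  have hterm : ∀ X X', S X X' → g.term X' → g.term X := by
    intro X X' hS hX Z hZ
    obtain ⟨W, Z', hW, hZ', -⟩ := h1 X X' hS Z hZ
    rw [hW.of_term hX] at hZ'
    exact hX _ hZ'
  have hdel : ∀ {X Y : α} {t m : ℤ}, g.P u t X E m → g.dls X Y → g.P u t Y E m := by
    intro X Y t m h h'
    obtain ⟨E', h4, h5⟩ := h.toDs h'
    rwa [h4.of_term hE] at h5
  rcases P_iff.mp h with ⟨hX', -, hm⟩ | ⟨τ, ht, q⟩
  · exact P.of_term (hterm _ _ hS hX') hE hm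
  · have hA : ∀ X X' : α, g.sz X ≤ n → S X X' → ∀ m, g.Am u τ X' E m → g.Am u τ X E m := by
      rintro X X' hn hS m (⟨X1, hX1, h4⟩ | ⟨Y1, hY1, -⟩)
      · obtain ⟨Y, hY, Y2, hd, hS'⟩ := h2 X X' hS X1 hX1
        have := g.lt hY
        exact Or.inl ⟨Y, hY, ih _ (by omega) Y Y2 le_rfl hS' _ _ (hdel h4 hd)⟩
      · exact absurd hY1 (hE _)
    refine Q.toP (τ := τ) ⟨q.nn, ?_, ?_, ?_, ?_⟩ ht
    · intro _
      exact hA X X' hn hS _ (q.A (Or.inr hE))
    · intro Z hZ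
      obtain ⟨W, Y2, hd, hY2, hS'⟩ := h1 X X' hS Z hZ
      have := g.lt hZ
      have h5 : g.R u τ Y2 E (m - u) := (hdel (q.toP le_rfl) hd).toB hY2
      rcases h5 with h5 | h5
      · exact Or.inl (hA Z Y2 (by omega) hS' _ h5)
      · exact Or.inr (ih _ (by omega) Z Y2 le_rfl hS' _ _ h5)
    · intro Y' hY'
      exact absurd hY' (hE _)
    · intro Z hZ
      obtain ⟨Y1, hd, hS'⟩ := h3 X X' hS Z hZ
      have := g.dl_lt hZ
      exact ⟨E, dls.refl E, ih _ (by omega) Z Y1 le_rfl hS' _ _ (hdel (q.toP le_rfl) hd)⟩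

theorem P.trans {u t : ℤ} {X Y Z : α} {m M : ℤ} (h1 : g.P u t X Y m) (h2 : g.P u t Y Z M) :
    g.P u t X Z (m + M) := (trans_aux _ X Y Z le_rfl).1 t m M h1 h2

end Gm

end Pool.Agent.Helper44.Idg
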